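import Pool.Agent.H29.UDP.TPro

/-!
# MP_47c37b, module CHR: the mollified moments tested with cut off waves
-/

set_option autoImplicit false

open MeasureTheory SchwartzMap Filter Topology
open scoped ENNReal ContDiff InnerProductSpace

namespace Pool.Agent.H19.UDP

open Pool.Agent.H29.UDP
open Pool.Agent.H43.DPC (V S SD moment trans IsMAO Diag pm)
open Pool.Agent.H43.DPCS (TransInv)

namespace CHR

open scoped Classical in
theorem expand {n : ℕ} (θ : Fin n → ℝ) :
    Complex.exp ((∑ j, θ j : ℝ) * Complex.I) =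
      ∑ A ∈ (Finset.univ : Finset (Fin n)).powerset, Complex.I ^ A.card *
        ((∏ j, (if j ∈ A then Real.sin (θ j) else Real.cos (θ j)) : ℝ) : ℂ) := by
  have h1 : Complex.exp ((∑ j, θ j : ℝ) * Complex.I) =
      ∏ j, (((Real.sin (θ j) : ℝ) : ℂ) * Complex.I + ((Real.cos (θ j) : ℝ) : ℂ)) := by
    push_cast
    rw [Finset.sum_mul, Complex.exp_sum]
    refine Finset.prod_congr rfl fun j _ => ?_
    rw [Complex.exp_mul_I, add_comm]
  rw [h1, Finset.prod_add]
  refine Finset.sum_congr rfl fun A _ => ?_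
  rw [Finset.prod_mul_distrib, Finset.prod_const]
  have h2 : (∏ j, (if j ∈ A then Real.sin (θ j) else Real.cos (θ j)) : ℝ) =
      (∏ j ∈ A, Real.sin (θ j)) * ∏ j ∈ Finset.univ \ A, Real.cos (θ j) := by
    rw [← Finset.prod_sdiff (Finset.subset_univ A), mul_comm]
    congr 1
    · exact Finset.prod_congr rfl fun j hj => if_pos hj
    · exact Finset.prod_congr rfl fun j hj => if_neg (Finset.mem_sdiff.1 hj).2
  rw [h2]
  push_cast
  ring

open scoped Classical in
theorem expand_cos {n : ℕ} (θ : Fin n → ℝ) : Real.cos (∑ j, θ j) =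
    ∑ A ∈ (Finset.univ : Finset (Fin n)).powerset, (Complex.I ^ A.card).re *
      ∏ j, (if j ∈ A then Real.sin (θ j) else Real.cos (θ j)) := by
  have h := congrArg Complex.re (expand θ)
  rw [Complex.exp_ofReal_mul_I_re, Complex.re_sum] at h
  rw [h]
  exact Finset.sum_congr rfl fun A _ => Complex.re_mul_ofReal _ _

open scoped Classical in
theorem expand_sin {n : ℕ} (θ : Fin n → ℝ) : Real.sin (∑ j, θ j) =
    ∑ A ∈ (Finset.univ : Finset (Fin n)).powerset, (Complex.I ^ A.card).im *
      ∏ j, (if j ∈ A then Real.sin (θ j) else Real.cos (θ j)) := by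
  have h := congrArg Complex.im (expand θ)
  rw [Complex.exp_ofReal_mul_I_im, Complex.im_sum] at h
  rw [h]
  exact Finset.sum_congr rfl fun A _ => Complex.im_mul_ofReal _ _

theorem abs_re (k : ℕ) : |(Complex.I ^ k).re| ≤ 1 := by
  refine (Complex.abs_re_le_norm _).trans ?_
  rw [norm_pow, Complex.norm_I, one_pow]

theorem abs_im (k : ℕ) : |(Complex.I ^ k).im| ≤ 1 := by
  refine (Complex.abs_im_le_norm _).trans ?_
  rw [norm_pow, Complex.norm_I, one_pow]

variable {d n : ℕ}

/-- the `j`-th component of a linear form -/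
noncomputable def comp (l : (Fin n → V d) →L[ℝ] ℝ) (j : Fin n) : V d →L[ℝ] ℝ :=
  l.comp (ContinuousLinearMap.single ℝ (fun _ : Fin n => V d) j)

theorem sum_comp (l : (Fin n → V d) →L[ℝ] ℝ) (y : Fin n → V d) :
    l y = ∑ j, comp l j (y j) := by
  have h : y = ∑ j, (Pi.single j (y j) : Fin n → V d) := (Finset.univ_sum_single y).symm
  conv_lhs => rw [h, map_sum]
  rfl

theorem norm_comp (l : (Fin n → V d) →L[ℝ] ℝ) (j : Fin n) : ‖comp l j‖ ≤ ‖l‖ := by
  refine ContinuousLinearMap.opNorm_le_bound _ (norm_nonneg _) fun x => ?_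
  have h1 : comp l j x = l (Pi.single j x) := rfl
  have h2 : ‖(Pi.single j x : Fin n → V d)‖ = ‖x‖ :=
    Pi.norm_single (G := fun _ : Fin n => V d) (i := j) x
  rw [h1]
  refine (l.le_opNorm _).trans ?_
  rw [h2]

/-- the bound for one product of waves -/
theorem one (hMDF : T_MDF) (hMOL : Pool.Agent.H80.LD.T_MOL) (hCON : Pool.Agent.H43.DPC.T_CON)
    (μ : Measure (SD d)) [IsProbabilityMeasure μ] (hμ : IsMAO μ) (hT : TransInv μ)
    (ρ : ℕ → S d) (hρ : Api ρ) (n : ℕ) : ∃ (C : ℝ) (m : ℕ), 0 ≤ C ∧ ∀ (k k' : ℕ)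
      (f : Fin n → S d),
      Integrable (fun y : Fin n → V d => (∏ j, f j (y j)) *
        (mm μ (ρ k) n y - mm μ (ρ k') n y)) ∧
      |∫ y : Fin n → V d, (∏ j, f j (y j)) * (mm μ (ρ k) n y - mm μ (ρ k') n y)| ≤
        C * (∏ j, (1 + pm m (f j))) / ((min k k' : ℕ) + 1 : ℝ) := by
  obtain ⟨C, m, hC, hmd⟩ := hMDF d μ hμ ρ hρ n
  refine ⟨C, m, hC, fun k k' f => ?_⟩
  choose h hh using fun j => hCON d (f j) (ρ k)
  choose h' hh' using fun j => hCON d (f j) (ρ k')
  obtain ⟨-, i1, e1⟩ := hMOL d μ hμ hT n (ρ k) f h hh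
  obtain ⟨-, i2, e2⟩ := hMOL d μ hμ hT n (ρ k') f h' hh'
  have heq : (fun y : Fin n → V d => (∏ j, f j (y j)) * (mm μ (ρ k) n y - mm μ (ρ k') n y)) =
      fun y => (∏ j, f j (y j)) * moment μ (fun j => trans (y j) (ρ k)) -
        (∏ j, f j (y j)) * moment μ (fun j => trans (y j) (ρ k')) := by
    funext y
    unfold mm
    ring
  constructor
  · rw [heq]
    exact i1.sub i2
  · rw [heq, integral_sub i1 i2, ← e1, ← e2]
    exact hmd k k' f h h' hh hh'

end CHR

open CHR in
theorem pf_CHR (hPMC : T_PMC) (hMDF : T_MDF) (hMOL : Pool.Agent.H80.LD.T_MOL)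
    (hCON : Pool.Agent.H43.DPC.T_CON) : T_CHR := by
  classical
  intro d μ _ hμ hT ρ hρ n χ hχ hχc
  obtain ⟨C, m, hC, hone⟩ := one hMDF hMOL hCON μ hμ hT ρ hρ n
  choose B hB hfg using fun j => hPMC d (χ j) (hχ j) (hχc j) m
  set D : ℝ := ∏ j, (1 + B j) with hD
  have hD0 : 0 ≤ D := Finset.prod_nonneg fun j _ => by linarith [hB j]
  -- the bound for a combination of products of waves
  have key : ∀ (l : (Fin n → V d) →L[ℝ] ℝ) (k k' : ℕ) (c : Finset (Fin n) → ℝ)
      (w : (Fin n → V d) → ℝ), (∀ A, |c A| ≤ 1) →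
      (∀ y, w y = ∑ A ∈ (Finset.univ : Finset (Fin n)).powerset, c A *
        ∏ j, (if j ∈ A then Real.sin (comp l j (y j)) else Real.cos (comp l j (y j)))) →
      |∫ y : Fin n → V d, (∏ j, χ j (y j)) * w y * (mm μ (ρ k) n y - mm μ (ρ k') n y)| ≤
        (2 ^ n * (C * D)) * (1 + ‖l‖) ^ (m * n) / ((min k k' : ℕ) + 1 : ℝ) := by
    intro l k k' c w hc hw
    choose f g hf hg hfn hgn using fun j => hfg j (comp l j)
    set F : Finset (Fin n) → Fin n → S d := fun A j => if j ∈ A then g j else f j with hF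
    have hFv : ∀ A j x, F A j x = χ j x *
        (if j ∈ A then Real.sin (comp l j x) else Real.cos (comp l j x)) := by
      intro A j x
      rw [hF]
      simp only
      split_ifs
      · exact hg j x
      · exact hf j x
    have hFn : ∀ A j, 1 + pm m (F A j) ≤ (1 + B j) * (1 + ‖l‖) ^ m := by
      intro A j
      have h1 : pm m (F A j) ≤ B j * (1 + ‖comp l j‖) ^ m := by
        rw [hF]
        simp only
        split_ifs
        · exact hgn j
        · exact hfn j
      have h2 : (1 + ‖comp l j‖) ^ m ≤ (1 + ‖l‖) ^ m :=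
        pow_le_pow_left₀ (by positivity) (by linarith [norm_comp l j]) m
      have h3 : 1 ≤ (1 + ‖l‖) ^ m := one_le_pow₀ (by linarith [norm_nonneg l])
      have h4 := mul_le_mul_of_nonneg_left h2 (hB j)
      linarith
    have hpm : ∀ A j, 0 ≤ 1 + pm m (F A j) := by
      intro A j
      have : 0 ≤ pm m (F A j) := apply_nonneg _ _
      linarith
    have hprod : ∀ A, ∏ j, (1 + pm m (F A j)) ≤ D * (1 + ‖l‖) ^ (m * n) := by
      intro A
      calc ∏ j, (1 + pm m (F A j)) ≤ ∏ j : Fin n, ((1 + B j) * (1 + ‖l‖) ^ m) :=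
            Finset.prod_le_prod (fun j _ => hpm A j) fun j _ => hFn A j
        _ = D * (1 + ‖l‖) ^ (m * n) := by
            rw [Finset.prod_mul_distrib, Finset.prod_const, Finset.card_univ, Fintype.card_fin,
              ← pow_mul]
    have hpt : ∀ y : Fin n → V d, (∏ j, χ j (y j)) * w y *
        (mm μ (ρ k) n y - mm μ (ρ k') n y) =
        ∑ A ∈ (Finset.univ : Finset (Fin n)).powerset,
          c A * ((∏ j, F A j (y j)) * (mm μ (ρ k) n y - mm μ (ρ k') n y)) := by
      intro y
      rw [hw, Finset.mul_sum, Finset.sum_mul]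
      refine Finset.sum_congr rfl fun A _ => ?_
      rw [Finset.prod_congr rfl fun j _ => hFv A j (y j), Finset.prod_mul_distrib]
      ring
    have hN : (0 : ℝ) < ((min k k' : ℕ) + 1 : ℝ) := by positivity
    calc |∫ y : Fin n → V d, (∏ j, χ j (y j)) * w y * (mm μ (ρ k) n y - mm μ (ρ k') n y)|
        = |∑ A ∈ (Finset.univ : Finset (Fin n)).powerset,
          c A * ∫ y : Fin n → V d, (∏ j, F A j (y j)) *
            (mm μ (ρ k) n y - mm μ (ρ k') n y)| := by
          congr 1
          simp only [hpt]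
          rw [integral_finsetSum _ fun A _ => ((hone k k' (F A)).1.const_mul (c A))]
          refine Finset.sum_congr rfl fun A _ => ?_
          rw [integral_const_mul]
      _ ≤ ∑ A ∈ (Finset.univ : Finset (Fin n)).powerset,
          C * (D * (1 + ‖l‖) ^ (m * n)) / ((min k k' : ℕ) + 1 : ℝ) := by
          refine (Finset.abs_sum_le_sum_abs _ _).trans (Finset.sum_le_sum fun A _ => ?_)
          rw [abs_mul]
          refine (mul_le_of_le_one_left (abs_nonneg _) (hc A)).trans ?_
          refine (hone k k' (F A)).2.trans ?_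
          exact div_le_div_of_nonneg_right (mul_le_mul_of_nonneg_left (hprod A) hC) hN.le
      _ = _ := by
          rw [Finset.sum_const, Finset.card_powerset, Finset.card_univ, Fintype.card_fin,
            nsmul_eq_mul]
          push_cast
          ring
  refine ⟨2 ^ n * (C * D), m * n, fun l k k' => ⟨?_, ?_⟩⟩
  · refine key l k k' (fun A => (Complex.I ^ A.card).re) (fun y => Real.cos (l y))
      (fun A => abs_re _) fun y => ?_
    rw [sum_comp l y]
    exact expand_cos _
  · refine key l k k' (fun A => (Complex.I ^ A.card).im) (fun y => Real.sin (l y))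
      (fun A => abs_im _) fun y => ?_
    rw [sum_comp l y]
    exact expand_sin _

end Pool.Agent.H19.UDP
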