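import Pool.Agent.H29.UDP.TPro
import Pool.Agent.H74.LD.DIF

/-!
# MP_47c37b, module DIF2: differences of the moments
-/

set_option autoImplicit false

open MeasureTheory SchwartzMap Filter Topology
open scoped ENNReal ContDiff InnerProductSpace

namespace Pool.Agent.H19.UDP

open Pool.Agent.H29.UDP
open Pool.Agent.H43.DPC (V S SD moment trans rot IsMAO Diag Nn pm)
open Pool.Agent.H43.DPCS (TransInv)
open Pool.Agent.H80.LD (Re ml RPos)
open Pool.Agent.H74.LD (trans_apply trans_trans ml_eq_moment)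

namespace DIF2

variable {d : ℕ}

theorem Nn_nonneg (μ : Measure (SD d)) (n : ℕ) (f : S d) : 0 ≤ Nn μ n f := ENNReal.toReal_nonneg

/-- even norms are moments -/
theorem Nn_pow {μ : Measure (SD d)} (hM : IsMAO μ) (n : ℕ) (hn : 1 ≤ n) (f : S d) :
    Nn μ (2 * n) f ^ (2 * n) = ml μ (List.replicate (2 * n) f) := by
  have h0 : (2 * n : ℕ) ≠ 0 := by omega
  have h1 : ((2 * n : ℕ) : ℝ≥0∞) ≠ 0 := by exact_mod_cast h0
  have h2 : ((2 * n : ℕ) : ℝ≥0∞) ≠ ⊤ := ENNReal.natCast_ne_top _
  have h3 := (hM f _ h2).eLpNorm_eq_integral_rpow_norm h1 h2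
  have h4 : ((2 * n : ℕ) : ℝ≥0∞).toReal = ((2 * n : ℕ) : ℝ) := ENNReal.toReal_natCast _
  rw [h4] at h3
  have h5 : ∫ T : SD d, ‖T f‖ ^ ((2 * n : ℕ) : ℝ) ∂μ = ml μ (List.replicate (2 * n) f) := by
    unfold ml
    congr 1
    funext T
    rw [Real.rpow_natCast, List.map_replicate, List.prod_replicate, Real.norm_eq_abs, pow_mul,
      pow_mul, sq_abs]
  rw [h5] at h3
  have h6 : 0 ≤ ml μ (List.replicate (2 * n) f) := by
    rw [← h5]
    exact integral_nonneg fun T => by positivity
  unfold Nn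
  rw [h3, ENNReal.toReal_ofReal (Real.rpow_nonneg h6 _), Real.rpow_inv_natCast_pow h6 h0]

theorem Nn_mono {μ : Measure (SD d)} [IsProbabilityMeasure μ] (hM : IsMAO μ) {k n : ℕ}
    (hkn : k ≤ n) (f : S d) : Nn μ k f ≤ Nn μ n f := by
  unfold Nn
  refine ENNReal.toReal_mono (hM f _ (ENNReal.natCast_ne_top n)).eLpNorm_ne_top ?_
  exact eLpNorm_le_eLpNorm_of_exponent_le (by exact_mod_cast hkn)
    (hM f _ (ENNReal.natCast_ne_top n)).aestronglyMeasurable

theorem Nn_rot {μ : Measure (SD d)} (hM : IsMAO μ) {e : V d} (hI : RInv μ e) (n : ℕ)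
    (hn : 1 ≤ n) (f : S d) : Nn μ (2 * n) (rot (Re e) f) = Nn μ (2 * n) f := by
  have h1 := Nn_pow hM n hn (rot (Re e) f)
  have h2 := hI (List.replicate (2 * n) f)
  rw [List.map_replicate] at h2
  rw [h2, ← Nn_pow hM n hn f] at h1
  exact (pow_left_inj₀ (Nn_nonneg _ _ _) (Nn_nonneg _ _ _) (by omega)).1 h1

/-- the bound for lists -/
theorem ml_le (hHOL : Pool.Agent.H43.DPC.T_HOL) {μ : Measure (SD d)} [IsProbabilityMeasure μ]
    (hM : IsMAO μ) (l : List (S d)) (N : ℕ) (hl : l.length ≤ N) (hne : 1 ≤ l.length) :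
    |ml μ l| ≤ (l.map (Nn μ N)).prod := by
  have h1 := (hHOL d μ hM).1 l.length hne (fun i : Fin l.length => l[i.1])
  have h2 : ∏ i : Fin l.length, Nn μ l.length (l[i.1]) ≤ ∏ i : Fin l.length, Nn μ N (l[i.1]) :=
    Finset.prod_le_prod (fun i _ => Nn_nonneg _ _ _) (fun i _ => Nn_mono hM hl _)
  have h3 : ∏ i : Fin l.length, Nn μ N (l[i.1]) = (l.map (Nn μ N)).prod :=
    Fin.prod_univ_fun_getElem l (Nn μ N)
  rw [ml_eq_moment, ← h3]
  exact h1.trans h2

/-- the doubled list -/
theorem dbl (hHOL : Pool.Agent.H43.DPC.T_HOL) {μ : Measure (SD d)} [IsProbabilityMeasure μ]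
    (hM : IsMAO μ) {e : V d} (hI : RInv μ e) (l : List (S d)) (n : ℕ) (hl : l.length ≤ n) :
    Real.sqrt (ml μ (l.map (rot (Re e)) ++ l)) ≤ (l.map (Nn μ (2 * n))).prod := by
  rcases Nat.eq_zero_or_pos l.length with h0 | h0
  · rw [List.length_eq_zero_iff] at h0
    subst h0
    unfold ml
    simp
  · have h1 := ml_le hHOL hM (l.map (rot (Re e)) ++ l) (2 * n) (by
      rw [List.length_append, List.length_map]
      omega) (by
      rw [List.length_append, List.length_map]
      omega)
    have h2 : ((l.map (rot (Re e)) ++ l).map (Nn μ (2 * n))).prod =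
        (l.map (Nn μ (2 * n))).prod ^ 2 := by
      rw [List.map_append, List.prod_append, List.map_map, sq]
      congr 2
      apply List.map_congr_left
      intro f _
      exact Nn_rot hM hI n (by omega) f
    rw [h2] at h1
    have h3 : 0 ≤ (l.map (Nn μ (2 * n))).prod := by
      apply List.prod_nonneg
      intro a ha
      obtain ⟨f, -, rfl⟩ := List.mem_map.mp ha
      exact Nn_nonneg _ _ _
    calc Real.sqrt (ml μ (l.map (rot (Re e)) ++ l)) ≤
          Real.sqrt ((l.map (Nn μ (2 * n))).prod ^ 2) :=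
          Real.sqrt_le_sqrt ((le_abs_self _).trans h1)
      _ = _ := Real.sqrt_sq h3

end DIF2

open DIF2 in
theorem pf_DIF2 (hRPD2 : T_RPD2) (hHOL : Pool.Agent.H43.DPC.T_HOL)
    (hINV : Pool.Agent.H43.DPC.T_INV) : T_DIF2 := by
  classical
  intro d μ _ hM hT e he hRP hRI n m R f c t h hA hB hh hmh ht
  have hT' := Pool.Agent.H43.DPCS.transInv_of μ hT
  -- translate
  set g : Fin n → S d := fun j => trans ((-c) • e) (f j) with hg
  have hin : ∀ x : V d, ⟪e, x - (-c) • e⟫_ℝ = ⟪e, x⟫_ℝ + c := by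
    intro x
    rw [inner_sub_right, inner_smul_right, real_inner_self_eq_norm_sq, he]
    ring
  have hgA : ∀ j ∉ R, ∀ x, g j x ≠ 0 → ⟪e, x⟫_ℝ < 0 := by
    intro j hj x hx
    have h1 := hA j hj _ hx
    rw [hin] at h1
    linarith
  have hgB : ∀ j ∈ R, ∀ x, g j x ≠ 0 → t < ⟪e, x⟫_ℝ := by
    intro j hj x hx
    have h1 := hB j hj _ hx
    rw [hin] at h1
    linarith
  set A : List (S d) := Rᶜ.toList.map g with hAd
  set L : List (S d) := R.toList.map g with hLd
  have hmom : ∀ s : ℝ, moment μ (fun j => if j ∈ R then trans (s • e) (f j) else f j) =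
      ml μ (A ++ L.map (trans (s • e))) := by
    intro s
    rw [← hINV.moment_trans d μ hT' n ((-c) • e)]
    unfold moment ml
    refine integral_congr_ae (Filter.Eventually.of_forall fun T => ?_)
    simp only [hAd, hLd, List.map_append, List.prod_append, List.map_map,
      Finset.prod_map_toList]
    rw [mul_comm, ← Finset.prod_mul_prod_compl R]
    congr 1
    · apply Finset.prod_congr rfl
      intro j hj
      rw [if_pos hj, trans_trans, add_comm, ← trans_trans]
      rfl
    · apply Finset.prod_congr rfl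
      intro j hj
      rw [if_neg (Finset.mem_compl.mp hj)]
      rfl
  have hcard : R.card ≤ n := by
    have := Finset.card_le_univ R
    rwa [Fintype.card_fin] at this
  have hcardc : Rᶜ.card ≤ n := by
    have := Finset.card_le_univ Rᶜ
    rwa [Fintype.card_fin] at this
  have hRPDi := hRPD2 d μ hM hT e he hRP hRI A L t m h (by
      intro f' hf' x hx
      obtain ⟨j, hj, rfl⟩ := List.mem_map.mp hf'
      exact hgA j (Finset.mem_compl.mp (Finset.mem_toList.mp hj)) x hx) (by
      intro f' hf' x hx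
      obtain ⟨j, hj, rfl⟩ := List.mem_map.mp hf'
      exact hgB j (Finset.mem_toList.mp hj) x hx) hh hmh ht
  have hsum : ∑ i ∈ Finset.range (m + 1), (-1) ^ i * (m.choose i : ℝ) *
      moment μ (fun j => if j ∈ R then trans (((i : ℝ) * h) • e) (f j) else f j) =
      ∑ i ∈ Finset.range (m + 1), (-1) ^ i * (m.choose i : ℝ) *
        ml μ (A ++ L.map (trans (((i : ℝ) * h) • e))) := by
    apply Finset.sum_congr rfl
    intro i _
    rw [hmom]
  rw [hsum]
  have hdA := dbl hHOL hM hRI A n (by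
    rw [hAd, List.length_map, Finset.length_toList]
    exact hcardc)
  have hdL := dbl hHOL hM hRI (L.map (trans ((-t) • e))) n (by
    rw [List.length_map, hLd, List.length_map, Finset.length_toList]
    exact hcard)
  refine hRPDi.trans ?_
  have hNA : (A.map (Nn μ (2 * n))).prod *
      ((L.map (trans ((-t) • e))).map (Nn μ (2 * n))).prod = ∏ i, Nn μ (2 * n) (f i) := by
    simp only [hAd, hLd, List.map_map, Finset.prod_map_toList]
    rw [mul_comm, ← Finset.prod_mul_prod_compl R (fun i => Nn μ (2 * n) (f i))]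
    congr 1
    · apply Finset.prod_congr rfl
      intro j _
      simp only [Function.comp_apply]
      rw [hINV.Nn_trans d μ hT', hg, hINV.Nn_trans d μ hT']
    · apply Finset.prod_congr rfl
      intro j _
      simp only [Function.comp_apply]
      rw [hg, hINV.Nn_trans d μ hT']
  have hNA0 : 0 ≤ (A.map (Nn μ (2 * n))).prod := by
    apply List.prod_nonneg
    intro a ha
    obtain ⟨f, -, rfl⟩ := List.mem_map.mp ha
    exact Nn_nonneg _ _ _
  refine mul_le_mul_of_nonneg_left ?_ (by positivity)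
  rw [← hNA]
  exact mul_le_mul hdA hdL (Real.sqrt_nonneg _) hNA0

end Pool.Agent.H19.UDP
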