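import Pool.Agent.H29.UDP.TPro
import Pool.Agent.H74.LD.DIF

/-!
# MP_47c37b, module DIG: differences of the mollified moments along a separating direction
-/

set_option autoImplicit false

open MeasureTheory SchwartzMap Filter Topology
open scoped ENNReal ContDiff InnerProductSpace

namespace Pool.Agent.H19.UDP

open Pool.Agent.H29.UDP
open Pool.Agent.H43.DPC (V S SD moment trans rot IsMAO Diag Nn pm)
open Pool.Agent.H43.DPCS (TransInv)
open Pool.Agent.H80.LD (Re ml RPos)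
open Pool.Agent.H74.LD (trans_apply trans_trans)

namespace DIG

/-- the norms of the mollifiers -/
theorem bound (hCTN : Pool.Agent.H43.DPC.T_CTN) {d : ℕ} (μ : Measure (SD d))
    [IsProbabilityMeasure μ] (hM : IsMAO μ) (ρ : ℕ → S d) (hρ : Api ρ) (n : ℕ) :
    ∃ (Λ : ℝ) (N : ℕ), 1 ≤ Λ ∧ ∀ k : ℕ, ∏ _j : Fin n, Nn μ (2 * n) (ρ k) ≤
      Λ * ((k : ℝ) + 1) ^ N := by
  rcases Nat.eq_zero_or_pos n with rfl | hn
  · exact ⟨1, 0, le_rfl, fun k => by simp⟩
  · obtain ⟨C, m, hC, hb⟩ := hCTN d μ hM (2 * n) (by omega)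
    obtain ⟨C₁, N, hg⟩ := hρ.grow m
    have hC₁ : 0 ≤ C₁ := by
      have h1 := hg 0
      have h2 : 0 ≤ pm m (ρ 0) := apply_nonneg _ _
      simp only [Nat.cast_zero, zero_add, one_pow, mul_one] at h1
      exact h2.trans h1
    refine ⟨max 1 ((C * C₁) ^ n), N * n, le_max_left _ _, fun k => ?_⟩
    have h1 : Nn μ (2 * n) (ρ k) ≤ C * C₁ * ((k : ℝ) + 1) ^ N := by
      refine (hb (ρ k)).trans ?_
      rw [mul_assoc]
      exact mul_le_mul_of_nonneg_left (hg k) hC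
    have h0 : 0 ≤ Nn μ (2 * n) (ρ k) := ENNReal.toReal_nonneg
    rw [Finset.prod_const, Finset.card_univ, Fintype.card_fin]
    calc Nn μ (2 * n) (ρ k) ^ n ≤ (C * C₁ * ((k : ℝ) + 1) ^ N) ^ n :=
          pow_le_pow_left₀ h0 h1 n
      _ = (C * C₁) ^ n * ((k : ℝ) + 1) ^ (N * n) := by rw [mul_pow, ← pow_mul]
      _ ≤ _ := mul_le_mul_of_nonneg_right (le_max_right _ _) (by positivity)

end DIG

open DIG in
theorem pf_DIG (hDIF2 : T_DIF2) (hCTN : Pool.Agent.H43.DPC.T_CTN)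
    (hINV : Pool.Agent.H43.DPC.T_INV) : T_DIG := by
  classical
  intro d μ _ hM hT ρ hρ n
  obtain ⟨Λ, N, hΛ, hb⟩ := bound hCTN μ hM ρ hρ n
  refine ⟨Λ, N, hΛ, ?_⟩
  intro e he hRP hRI x R c δ hδ hS k hk y hy τ hτ m q hq hmq
  have hT' := Pool.Agent.H43.DPCS.transInv_of μ hT
  have hk0 : (0 : ℝ) < (k : ℝ) + 1 := by positivity
  have hk1 : 1 / ((k : ℝ) + 1) ≤ δ / 4 := by
    rw [div_le_iff₀ hk0]
    linarith
  -- the test functions
  set f : Fin n → S d := fun j => trans (y j + (if j ∈ R then τ • e else 0)) (ρ k) with hf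
  have hee : ⟪e, e⟫_ℝ = 1 := by
    rw [real_inner_self_eq_norm_sq, he, one_pow]
  have hie : ∀ v : V d, |⟪e, v⟫_ℝ| ≤ ‖v‖ := by
    intro v
    have := abs_real_inner_le_norm e v
    rwa [he, one_mul] at this
  have hyj : ∀ j, ‖y j - x j‖ < δ / 4 := by
    intro j
    rw [← dist_eq_norm]
    exact (dist_le_pi_dist y x j).trans_lt hy
  have hA : ∀ j ∉ R, ∀ z, f j z ≠ 0 → ⟪e, z⟫_ℝ < c - δ / 4 := by
    intro j hj z hz
    have h1 : ‖z - y j‖ ≤ δ / 4 := by
      have h2 : ρ k (z - (y j + (if j ∈ R then τ • e else 0))) ≠ 0 := hz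
      rw [if_neg hj, add_zero] at h2
      exact (hρ.supp k _ h2).trans hk1
    have h3 : ⟪e, z⟫_ℝ = ⟪e, z - y j⟫_ℝ + ⟪e, y j - x j⟫_ℝ + ⟪e, x j⟫_ℝ := by
      rw [inner_sub_right, inner_sub_right]
      ring
    have h4 := (le_abs_self _).trans (hie (z - y j))
    have h5 := (le_abs_self _).trans (hie (y j - x j))
    have h6 := hS.1 j hj
    have h7 := hyj j
    linarith
  have hB : ∀ j ∈ R, ∀ z, f j z ≠ 0 → c - δ / 4 + δ / 2 < ⟪e, z⟫_ℝ := by
    intro j hj z hz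
    have h1 : ‖z - (y j + τ • e)‖ ≤ δ / 4 := by
      have h2 : ρ k (z - (y j + (if j ∈ R then τ • e else 0))) ≠ 0 := hz
      rw [if_pos hj] at h2
      exact (hρ.supp k _ h2).trans hk1
    have h3 : ⟪e, z⟫_ℝ = ⟪e, z - (y j + τ • e)⟫_ℝ + ⟪e, y j - x j⟫_ℝ + ⟪e, x j⟫_ℝ + τ := by
      rw [inner_sub_right, inner_sub_right, inner_add_right, inner_smul_right, hee]
      ring
    have h4 := (neg_le_of_abs_le (hie (z - (y j + τ • e))))
    have h5 := (neg_le_of_abs_le (hie (y j - x j)))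
    have h6 := hS.2 j hj
    have h7 := hyj j
    linarith
  have hmain := hDIF2 d μ hM hT e he hRP hRI n m R f (c - δ / 4) (δ / 2) q hA hB hq
    (by linarith) (by linarith)
  have hsum : dm m q (grp R e) (mm μ (ρ k) n) (y + τ • grp R e) =
      ∑ i ∈ Finset.range (m + 1), (-1) ^ i * (m.choose i : ℝ) *
        moment μ (fun j => if j ∈ R then trans (((i : ℝ) * q) • e) (f j) else f j) := by
    unfold dm
    refine Finset.sum_congr rfl fun i _ => ?_
    congr 1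
    unfold mm
    congr 1
    funext j
    have h1 : (y + τ • grp R e + ((i : ℝ) * q) • grp R e) j =
        y j + τ • grp R e j + ((i : ℝ) * q) • grp R e j := rfl
    rw [h1]
    by_cases hj : j ∈ R
    · rw [if_pos hj]
      simp only [hf, grp, if_pos hj]
      rw [trans_trans, add_comm (((i : ℝ) * q) • e)]
    · rw [if_neg hj]
      simp only [hf, grp, if_neg hj, smul_zero, add_zero]
  rw [hsum]
  refine hmain.trans ?_
  have hNf : ∏ j, Nn μ (2 * n) (f j) = ∏ _j : Fin n, Nn μ (2 * n) (ρ k) := by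
    refine Finset.prod_congr rfl fun j _ => ?_
    rw [hf]
    exact hINV.Nn_trans d μ hT' _ _ _
  rw [hNf]
  have hp0 : 0 ≤ ∏ _j : Fin n, Nn μ (2 * n) (ρ k) :=
    Finset.prod_nonneg fun _ _ => ENNReal.toReal_nonneg
  have hmq0 : 0 ≤ (m : ℝ) * q := by positivity
  have h1 : (2 * (m : ℝ) * q / (δ / 2)) ^ m ≤ (8 / δ * (m * q)) ^ m := by
    refine pow_le_pow_left₀ (by positivity) ?_ m
    rw [div_le_iff₀ (by positivity)]
    have : 8 / δ * (↑m * q) * (δ / 2) = 4 * (m * q) := by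
      field_simp
      ring
    rw [this]
    linarith
  calc (2 * (m : ℝ) * q / (δ / 2)) ^ m * ∏ _j : Fin n, Nn μ (2 * n) (ρ k)
      ≤ (8 / δ * (m * q)) ^ m * (Λ * ((k : ℝ) + 1) ^ N) :=
        mul_le_mul h1 (hb k) hp0 (by positivity)
    _ = _ := by ring

end Pool.Agent.H19.UDP
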