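import Pool.Agent.H29.UDP.TPro
import Pool.Agent.H11.DPC.DOM

/-!
# MP_47c37b, module DO2: the formula for compactly supported test functions, uniform cell bounds
-/

set_option autoImplicit false

open MeasureTheory SchwartzMap Filter Topology
open scoped ENNReal ContDiff

namespace Pool.Agent.H19.UDP

open Pool.Agent.H29.UDP
open Pool.Agent.H43.DPC

theorem pf_DO2 (hLI2 : T_LI2) (hSEP : Pool.Agent.H43.DPC.T_SEP)
    (hWSP : Pool.Agent.H43.DPC.T_WSP) : T_DO2 := by
  intro d μ _ hM a hU ha n hn s h1 h2 f hf
  obtain ⟨R, hR⟩ := Pool.Agent.H11.DPC.exists_R d n f hf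
  have hlim := hLI2 d μ hM a hU ha n hn R f hR
  have hsep := fun m => hSEP d μ n s h1 R m f hf
  have hlim2 : Tendsto (fun m : ℕ => ∫ x in (Diag d n)ᶜ, s x * (∏ i, f i (x i)) * wsep d n R m x)
      atTop (𝓝 (moment μ f)) := by
    refine hlim.congr (fun m => ?_)
    exact (hsep m).2
  have hcont : Continuous (fun x : Fin n → V d => ∏ i, f i (x i)) :=
    continuous_finsetProd _ (fun i _ => (f i).continuous.comp (continuous_apply i))
  have hcs : HasCompactSupport (fun x : Fin n → V d => ∏ i, f i (x i)) := by
    refine HasCompactSupport.intro (isCompact_univ_pi (fun i => (hf i))) (fun x hx => ?_)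
    rw [Set.mem_univ_pi] at hx
    push Not at hx
    obtain ⟨i, hi⟩ := hx
    exact Finset.prod_eq_zero (Finset.mem_univ i) (image_eq_zero_of_notMem_tsupport hi)
  have hint : Integrable (fun x : Fin n → V d => s x * ∏ i, f i (x i))
      (volume.restrict (Diag d n)ᶜ) := by
    have h3 := LocallyIntegrable.integrable_smul_left_of_hasCompactSupport h2 hcont hcs
    refine h3.congr (Eventually.of_forall (fun x => ?_))
    simp only [smul_eq_mul]
    ring
  have hlim3 : Tendsto (fun m : ℕ => ∫ x in (Diag d n)ᶜ, s x * (∏ i, f i (x i)) * wsep d n R m x)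
      atTop (𝓝 (∫ x in (Diag d n)ᶜ, s x * ∏ i, f i (x i))) := by
    refine tendsto_integral_of_dominated_convergence (fun x => ‖s x * ∏ i, f i (x i)‖)
      (fun m => (hsep m).1.aestronglyMeasurable) hint.norm (fun m => ?_) ?_
    · refine Eventually.of_forall (fun x => ?_)
      rw [norm_mul]
      have h4 : ‖wsep d n R m x‖ ≤ 1 := by
        rw [Real.norm_eq_abs, abs_of_nonneg (hWSP.nonneg d n R m x)]
        exact hWSP.le_one d n R m x
      exact mul_le_of_le_one_right (norm_nonneg _) h4
    · have hmeas : MeasurableSet (Diag d n)ᶜ := (hWSP.isClosed_Diag d n).isOpen_compl.measurableSet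
      filter_upwards [ae_restrict_mem hmeas] with x hx
      by_cases h5 : ∀ i, f i (x i) ≠ 0
      · have h6 := hWSP.eventually_eq_one d n R x hx (fun i j => hR i (x i) (h5 i) j)
        refine tendsto_const_nhds.congr' ?_
        filter_upwards [h6] with m hm
        rw [hm, mul_one]
      · push Not at h5
        obtain ⟨i, hi⟩ := h5
        have h7 : ∏ i, f i (x i) = 0 := Finset.prod_eq_zero (Finset.mem_univ i) hi
        simp only [h7, mul_zero, zero_mul]
        exact tendsto_const_nhds
  exact tendsto_nhds_unique hlim2 hlim3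

end Pool.Agent.H19.UDP
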