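import Pool.Agent.H29.UDP.TLat
import Pool.Agent.H80.LD.LRS

/-!
# MP_47c37b, module RPJ: the power law is reflection positive
-/

set_option autoImplicit false

open MeasureTheory Filter Topology
open scoped ENNReal InnerProductSpace

namespace Pool.Agent.H19.UDP

open Pool.Agent.H29.UDP
open Pool.Agent.H43.DPC (V)
open Pool.Agent.H80.LD (Re ej inner_ej norm_ej Re_ej)

theorem pf_RPJ (hRPK : Pool.Agent.H80.LD.T_RPK) : T_RPJ := by
  intro d j s hs ι _ x c hx
  have h1 : ∀ y : V d, Re (ej j) y = fl j y := by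
    intro y
    ext i
    rw [Re_ej]
    rfl
  have h2 := hRPK d (ej j) (norm_ej j) s hs (Fintype.card ι)
    (fun i => x ((Fintype.equivFin ι).symm i)) (fun i => c ((Fintype.equivFin ι).symm i))
    (fun i => by rw [inner_ej]; exact hx _)
  simp only [h1] at h2
  rw [← Equiv.sum_comp (Fintype.equivFin ι).symm
    (fun i => ∑ l, c i * c l * ‖fl j (x i) - x l‖ ^ (-(2 * s)))]
  refine h2.trans_eq (Finset.sum_congr rfl fun i _ => ?_)
  rw [← Equiv.sum_comp (Fintype.equivFin ι).symm (fun l =>
    c ((Fintype.equivFin ι).symm i) * c l *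
      ‖fl j (x ((Fintype.equivFin ι).symm i)) - x l‖ ^ (-(2 * s)))]

end Pool.Agent.H19.UDP
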