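import Pool.Agent.H29.UDP.TLat

/-!
# MP_47c37b, module TIV: the infrared bound, dual form
-/

set_option autoImplicit false

open MeasureTheory Filter Topology
open scoped ENNReal InnerProductSpace

namespace Pool.Agent.H19.UDP

open Pool.Agent.H29.UDP

namespace TIV

variable {d N : ℕ} [NeZero N]

theorem J_neg {J : (Fin d → ZMod N) → ℝ} (hJ : TorJ d N J) (z : Fin d → ZMod N) :
    J (-z) = J z := by
  classical
  have h : ∀ s : Finset (Fin d), J (fun i => if i ∈ s then -z i else z i) = J z := by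
    intro s
    induction s using Finset.induction_on with
    | empty => simp
    | insert j s hj ih =>
      rw [← ih, ← hJ.flip j (fun i => if i ∈ s then -z i else z i)]
      congr 1
      funext i
      by_cases hij : i = j
      · subst hij
        simp [hj]
      · simp [hij]
  have h1 := h Finset.univ
  rw [← h1]
  congr 1
  funext i
  simp

/-- the quadratic form -/
theorem quad {J : (Fin d → ZMod N) → ℝ} (hJ : TorJ d N J) (h : (Fin d → ZMod N) → ℝ) :
    ∑ x, h x * Lh J h x = 1 / 2 * ∑ x, ∑ y, J (x - y) * (h x - h y) ^ 2 := by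
  have h1 : ∑ x, h x * Lh J h x = ∑ x, ∑ y, h x * (J (x - y) * (h x - h y)) := by
    refine Finset.sum_congr rfl fun x _ => ?_
    unfold Lh
    rw [Finset.mul_sum]
  have h2 : ∑ x, h x * Lh J h x = ∑ x, ∑ y, h y * (J (x - y) * (h y - h x)) := by
    rw [h1, Finset.sum_comm]
    refine Finset.sum_congr rfl fun x _ => Finset.sum_congr rfl fun y _ => ?_
    rw [← neg_sub x y, J_neg hJ]
  have h3 : (∑ x, h x * Lh J h x) + ∑ x, h x * Lh J h x =
      ∑ x, ∑ y, J (x - y) * (h x - h y) ^ 2 := by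
    conv_lhs => rw [h2]
    conv_lhs =>
      lhs
      rw [← h2, h1]
    rw [← Finset.sum_add_distrib]
    refine Finset.sum_congr rfl fun x _ => ?_
    rw [← Finset.sum_add_distrib]
    refine Finset.sum_congr rfl fun y _ => ?_
    ring
  linarith

theorem sum_Lh {J : (Fin d → ZMod N) → ℝ} (hJ : TorJ d N J) (h : (Fin d → ZMod N) → ℝ) :
    ∑ x, Lh J h x = 0 := by
  have h1 : ∑ x, Lh J h x = ∑ x, ∑ y, J (x - y) * (h y - h x) := by
    unfold Lh
    rw [Finset.sum_comm]
    refine Finset.sum_congr rfl fun x _ => Finset.sum_congr rfl fun y _ => ?_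
    rw [← neg_sub x y, J_neg hJ]
  have h2 : ∑ x, Lh J h x = -∑ x, ∑ y, J (x - y) * (h y - h x) := by
    unfold Lh
    rw [← Finset.sum_neg_distrib]
    refine Finset.sum_congr rfl fun x _ => ?_
    rw [← Finset.sum_neg_distrib]
    refine Finset.sum_congr rfl fun y _ => ?_
    ring
  linarith

/-- the operator `L` as a linear map -/
noncomputable def L (J : (Fin d → ZMod N) → ℝ) :
    ((Fin d → ZMod N) → ℝ) →ₗ[ℝ] ((Fin d → ZMod N) → ℝ) where
  toFun h := Lh J h
  map_add' h k := by
    funext x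
    show ∑ y, J (x - y) * ((h x + k x) - (h y + k y)) =
      (∑ y, J (x - y) * (h x - h y)) + ∑ y, J (x - y) * (k x - k y)
    rw [← Finset.sum_add_distrib]
    refine Finset.sum_congr rfl fun y _ => ?_
    ring
  map_smul' c h := by
    funext x
    show ∑ y, J (x - y) * (c * h x - c * h y) = c * ∑ y, J (x - y) * (h x - h y)
    rw [Finset.mul_sum]
    refine Finset.sum_congr rfl fun y _ => ?_
    ring

/-- the functions with sum zero -/
def W (d N : ℕ) [NeZero N] : Submodule ℝ ((Fin d → ZMod N) → ℝ) where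
  carrier := {h | ∑ x, h x = 0}
  add_mem' := by
    intro a b (ha : ∑ x, a x = 0) (hb : ∑ x, b x = 0)
    show ∑ x, (a x + b x) = 0
    rw [Finset.sum_add_distrib, ha, hb, add_zero]
  zero_mem' := by
    show ∑ _x : Fin d → ZMod N, (0 : ℝ) = 0
    simp
  smul_mem' := by
    intro c a (ha : ∑ x, a x = 0)
    show ∑ x, c * a x = 0
    rw [← Finset.mul_sum, ha, mul_zero]

theorem exists_h {J : (Fin d → ZMod N) → ℝ} (hJ : TorJ d N J) (hp : ∀ z, z ≠ 0 → 0 < J z)
    (f : (Fin d → ZMod N) → ℝ) (hf : ∑ x, f x = 0) : ∃ h, Lh J h = f := by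
  have hmaps : ∀ h ∈ W d N, L J h ∈ W d N := fun h _ => sum_Lh hJ h
  have hinj : Function.Injective ((L J).restrict hmaps) := by
    rw [injective_iff_map_eq_zero]
    rintro ⟨h, hh⟩ h0
    have h1 : Lh J h = 0 := congrArg Subtype.val h0
    have h2 : ∑ x, h x * Lh J h x = 0 := by
      refine Finset.sum_eq_zero fun x _ => ?_
      rw [h1]
      simp
    rw [quad hJ] at h2
    have h3 : ∑ x, ∑ y, J (x - y) * (h x - h y) ^ 2 = 0 := by linarith
    have h4 : ∀ x y, J (x - y) * (h x - h y) ^ 2 = 0 := by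
      intro x y
      have h5 := (Finset.sum_eq_zero_iff_of_nonneg (fun x _ => Finset.sum_nonneg fun y _ =>
        mul_nonneg (hJ.nonneg _) (sq_nonneg _))).1 h3 x (Finset.mem_univ x)
      exact (Finset.sum_eq_zero_iff_of_nonneg (fun y _ =>
        mul_nonneg (hJ.nonneg _) (sq_nonneg _))).1 h5 y (Finset.mem_univ y)
    have h5 : ∀ x y, h x = h y := by
      intro x y
      by_cases hxy : x = y
      · rw [hxy]
      · have h6 := hp (x - y) (sub_ne_zero.2 hxy)
        have h7 := (mul_eq_zero.1 (h4 x y)).resolve_left h6.ne'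
        exact sub_eq_zero.1 (pow_eq_zero_iff (two_ne_zero)|>.1 h7)
    have h6 : ∑ x, h x = 0 := hh
    apply Subtype.ext
    funext x
    have h7 : ∑ y, h y = (Fintype.card (Fin d → ZMod N) : ℝ) * h x := by
      rw [Finset.sum_congr rfl fun y _ => h5 y x, Finset.sum_const, Finset.card_univ,
        nsmul_eq_mul]
    rw [h7] at h6
    rcases mul_eq_zero.1 h6 with h8 | h8
    · exact absurd h8 (by exact_mod_cast Fintype.card_ne_zero)
    · exact h8
  have hsurj := LinearMap.injective_iff_surjective.1 hinj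
  obtain ⟨⟨h, _⟩, hh'⟩ := hsurj ⟨f, hf⟩
  exact ⟨h, congrArg Subtype.val hh'⟩

end TIV

open TIV in
theorem pf_TIV (hGD2 : T_GD2) : T_TIV := by
  intro d N _ hN J hJ hp g b hg f K hK hf hK2
  obtain ⟨h, rfl⟩ := exists_h hJ hp f hf
  have h1 := hK2 h
  have h2 : ∑ x, Lh J h x * h x = ∑ x, h x * Lh J h x :=
    Finset.sum_congr rfl fun x _ => mul_comm _ _
  rw [h2] at h1
  have h3 : ∑ x, h x * Lh J h x ≤ K := by
    by_contra hlt
    push Not at hlt
    have h4 : 0 < ∑ x, h x * Lh J h x := lt_of_le_of_lt hK hlt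
    nlinarith
  have h4 := hGD2 d N hN J hJ g b hg h
  have h5 : ∫ φ, (∑ x, Lh J h x * φ x) ^ 2 ∂(tlaw J g b) =
      ∫ φ, (∑ x, φ x * Lh J h x) ^ 2 ∂(tlaw J g b) := by
    congr 1
    funext φ
    congr 1
    exact Finset.sum_congr rfl fun x _ => mul_comm _ _
  rw [h5]
  exact h4.trans h3

end Pool.Agent.H19.UDP
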