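import Pool.Agent.H29.UDP.TPro

/-!
# MP_47c37b, module TPF: the two point function
-/

set_option autoImplicit false

open MeasureTheory SchwartzMap Filter Topology
open scoped ENNReal ContDiff InnerProductSpace

namespace Pool.Agent.H19.UDP

open Pool.Agent.H29.UDP
open Pool.Agent.H43.DPC (V S SD moment trans IsMAO Diag)
open Pool.Agent.H43.DPCS (TransInv)

namespace TPF

variable {d : ℕ}

theorem mem_diag {x : Fin 2 → V d} : x ∈ Diag d 2 ↔ x 0 = x 1 := by
  constructor
  · rintro ⟨i, j, hij, h⟩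
    fin_cases i <;> fin_cases j
    · exact absurd rfl hij
    · exact h
    · exact h.symm
    · exact absurd rfl hij
  · intro h
    exact ⟨0, 1, by decide, h⟩

theorem isOpen_diag : IsOpen (Diag d 2)ᶜ := by
  have h : Diag d 2 = {x | x 0 = x 1} := by
    ext x
    exact mem_diag
  rw [h]
  exact (isClosed_eq (continuous_apply 0) (continuous_apply 1)).isOpen_compl

/-- a normed bump as a Schwartz function -/
theorem bump (c : V d) {r : ℝ} (hr : 0 < r) : ∃ φ : S d, (∀ x, 0 ≤ φ x) ∧ ∫ x, φ x = 1 ∧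
    ∀ x, φ x ≠ 0 → dist x c ≤ r := by
  let φ : ContDiffBump c := ⟨r / 4, r / 2, by positivity, by linarith⟩
  have h1 : HasCompactSupport (φ.normed volume) := φ.hasCompactSupport_normed
  have h2 : ContDiff ℝ ∞ (φ.normed volume) := φ.contDiff_normed
  refine ⟨h1.toSchwartzMap h2, fun x => φ.nonneg_normed x, φ.integral_normed, fun x hx => ?_⟩
  have h3 : x ∈ Function.support (φ.normed volume) := hx
  rw [φ.support_normed_eq] at h3
  have h4 : dist x c < r / 2 := h3
  linarith

/-- the density is the limit of the moments of bumps -/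
theorem near {μ : Measure (SD d)} {s : (Fin 2 → V d) → ℝ}
    (hs : Pool.Agent.H43.DPC.Cond1 μ 2 s) (x : Fin 2 → V d) (hx : x ∉ Diag d 2) (ε : ℝ)
    (hε : 0 < ε) : ∃ ρ : ℝ, 0 < ρ ∧ ∀ f : Fin 2 → S d, (∀ i y, 0 ≤ f i y) →
      (∀ i, ∫ y, f i y = 1) → (∀ i y, f i y ≠ 0 → dist y (x i) ≤ ρ) →
      |moment μ f - s x| ≤ ε := by
  have hcont : ContinuousAt s x :=
    hs.smooth.continuousOn.continuousAt (isOpen_diag.mem_nhds hx)
  obtain ⟨η, hη, hη2⟩ := Metric.continuousAt_iff.1 hcont ε hε
  have hd : 0 < dist (x 0) (x 1) := dist_pos.2 fun h => hx (mem_diag.2 h)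
  refine ⟨min (η / 2) (dist (x 0) (x 1) / 3), lt_min (half_pos hη) (by positivity),
    fun f h0 h1 hsupp => ?_⟩
  have hts : ∀ i, tsupport (f i) ⊆
      Metric.closedBall (x i) (min (η / 2) (dist (x 0) (x 1) / 3)) := by
    intro i
    refine closure_minimal (fun y hy => ?_) Metric.isClosed_closedBall
    exact hsupp i y hy
  have hcomp : ∀ i, HasCompactSupport (f i) := fun i =>
    (isCompact_closedBall _ _).of_isClosed_subset (isClosed_tsupport _) (hts i)
  have hdisj0 : Disjoint (tsupport (f 0)) (tsupport (f 1)) := by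
    rw [Set.disjoint_left]
    intro y h2 h3
    have h4 : dist y (x 0) ≤ dist (x 0) (x 1) / 3 := (Metric.mem_closedBall.1 (hts 0 h2)).trans
      (min_le_right _ _)
    have h5 : dist y (x 1) ≤ dist (x 0) (x 1) / 3 := (Metric.mem_closedBall.1 (hts 1 h3)).trans
      (min_le_right _ _)
    have h6 := dist_triangle_left (x 0) (x 1) y
    linarith
  have hdisj : ∀ i j, i ≠ j → Disjoint (tsupport (f i)) (tsupport (f j)) := by
    intro i j hij
    fin_cases i <;> fin_cases j
    · exact absurd rfl hij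
    · exact hdisj0
    · exact hdisj0.symm
    · exact absurd rfl hij
  rw [hs.eq f hcomp hdisj]
  have hI : Integrable (fun y : Fin 2 → V d => ∏ i, f i (y i)) :=
    Integrable.fintype_prod fun i => (f i).integrable
  have hI1 : ∫ y : Fin 2 → V d, ∏ i, f i (y i) = 1 := by
    rw [integral_fintype_prod_volume_eq_prod (fun i => fun x => f i x)]
    exact Finset.prod_eq_one fun i _ => h1 i
  have hne : ∀ y : Fin 2 → V d, ∏ i, f i (y i) ≠ 0 → |s y - s x| ≤ ε ∧ y ∈ (Diag d 2)ᶜ := by
    intro y hy
    rw [Finset.prod_ne_zero_iff] at hy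
    have h2 : ∀ i, dist (y i) (x i) ≤ min (η / 2) (dist (x 0) (x 1) / 3) := fun i =>
      hsupp i (y i) (hy i (Finset.mem_univ i))
    constructor
    · have h3 : dist y x < η := by
        rw [dist_pi_lt_iff hη]
        intro i
        have := (h2 i).trans (min_le_left _ _)
        linarith
      exact (hη2 h3).le
    · intro h3
      rw [mem_diag] at h3
      have h4 := (h2 0).trans (min_le_right _ _)
      have h5 := (h2 1).trans (min_le_right _ _)
      rw [h3] at h4
      have h6 := dist_triangle_left (x 0) (x 1) (y 1)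
      linarith
  have hset : ∫ y in (Diag d 2)ᶜ, ∏ i, f i (y i) = 1 := by
    rw [← hI1]
    refine setIntegral_eq_integral_of_forall_compl_eq_zero fun y hy => ?_
    by_contra h
    exact hy (hne y h).2
  have hp0 : ∀ y : Fin 2 → V d, 0 ≤ ∏ i, f i (y i) := fun y =>
    Finset.prod_nonneg fun i _ => h0 i _
  have hint : Integrable (fun y : Fin 2 → V d => s y * ∏ i, f i (y i))
      (volume.restrict (Diag d 2)ᶜ) := by
    refine Integrable.mono' ((hI.const_mul (|s x| + ε)).restrict) ?_
      (Eventually.of_forall fun y => ?_)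
    · exact (hs.smooth.continuousOn.aestronglyMeasurable isOpen_diag.measurableSet).mul
        hI.aestronglyMeasurable.restrict
    · rw [Real.norm_eq_abs, abs_mul, abs_of_nonneg (hp0 y)]
      by_cases hz : ∏ i, f i (y i) = 0
      · rw [hz]; simp
      · refine mul_le_mul_of_nonneg_right ?_ (hp0 y)
        have h2 := (hne y hz).1
        have h3 := abs_sub_abs_le_abs_sub (s y) (s x)
        linarith
  have e1 : (∫ y in (Diag d 2)ᶜ, s y * ∏ i, f i (y i)) - s x =
      ∫ y in (Diag d 2)ᶜ, (s y - s x) * ∏ i, f i (y i) := by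
    have : s x = ∫ y in (Diag d 2)ᶜ, s x * ∏ i, f i (y i) := by
      rw [integral_const_mul, hset, mul_one]
    conv_lhs => rw [this]
    rw [← integral_sub hint (hI.const_mul (s x)).restrict]
    refine integral_congr_ae (Eventually.of_forall fun y => ?_)
    simp only
    ring
  rw [e1]
  calc |∫ y in (Diag d 2)ᶜ, (s y - s x) * ∏ i, f i (y i)|
      ≤ ∫ y in (Diag d 2)ᶜ, ε * ∏ i, f i (y i) := by
        rw [← Real.norm_eq_abs]
        refine norm_integral_le_of_norm_le (hI.const_mul ε).restrict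
          (Eventually.of_forall fun y => ?_)
        rw [Real.norm_eq_abs, abs_mul, abs_of_nonneg (hp0 y)]
        by_cases hz : ∏ i, f i (y i) = 0
        · rw [hz]; simp
        · exact mul_le_mul_of_nonneg_right (hne y hz).1 (hp0 y)
    _ = ε := by rw [integral_const_mul, hset, mul_one]

theorem moment_swap (μ : Measure (SD d)) (f : Fin 2 → S d) :
    moment μ ![f 1, f 0] = moment μ f := by
  unfold moment
  congr 1
  funext φ
  rw [Fin.prod_univ_two, Fin.prod_univ_two, mul_comm]
  rfl

theorem swap {μ : Measure (SD d)} {s : (Fin 2 → V d) → ℝ}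
    (hs : Pool.Agent.H43.DPC.Cond1 μ 2 s) (x y : V d) (hxy : x ≠ y) :
    s ![x, y] = s ![y, x] := by
  refine eq_of_forall_dist_le fun ε hε => ?_
  have h1 : ![x, y] ∉ Diag d 2 := fun h => hxy (mem_diag.1 h)
  have h2 : ![y, x] ∉ Diag d 2 := fun h => hxy (mem_diag.1 h).symm
  obtain ⟨ρ, hρ, h3⟩ := near hs _ h1 (ε / 2) (half_pos hε)
  obtain ⟨ρ', hρ', h4⟩ := near hs _ h2 (ε / 2) (half_pos hε)
  obtain ⟨f, hf0, hf1, hf2⟩ := bump x (lt_min hρ hρ')
  obtain ⟨g, hg0, hg1, hg2⟩ := bump y (lt_min hρ hρ')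
  have h5 := h3 ![f, g] (by intro i; fin_cases i; exacts [hf0, hg0])
    (by intro i; fin_cases i; exacts [hf1, hg1])
    (by
      intro i z hz
      fin_cases i
      · exact (hf2 z hz).trans (min_le_left _ _)
      · exact (hg2 z hz).trans (min_le_left _ _))
  have h6 := h4 ![g, f] (by intro i; fin_cases i; exacts [hg0, hf0])
    (by intro i; fin_cases i; exacts [hg1, hf1])
    (by
      intro i z hz
      fin_cases i
      · exact (hg2 z hz).trans (min_le_right _ _)
      · exact (hf2 z hz).trans (min_le_right _ _))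
  have h7 : moment μ ![g, f] = moment μ ![f, g] := moment_swap μ ![f, g]
  rw [h7] at h6
  rw [Real.dist_eq]
  rw [abs_le] at h5 h6 ⊢
  constructor <;> linarith [h5.1, h5.2, h6.1, h6.2]

theorem shift {μ : Measure (SD d)} (hM : ∀ (h : V d) (f : Fin 2 → S d),
    moment μ (fun i => trans h (f i)) = moment μ f) {s : (Fin 2 → V d) → ℝ}
    (hs : Pool.Agent.H43.DPC.Cond1 μ 2 s) (x y h : V d) (hxy : x ≠ y) :
    s ![x + h, y + h] = s ![x, y] := by
  refine eq_of_forall_dist_le fun ε hε => ?_
  have h1 : ![x, y] ∉ Diag d 2 := fun h => hxy (mem_diag.1 h)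
  have h2 : ![x + h, y + h] ∉ Diag d 2 := fun h' => hxy (add_right_cancel (mem_diag.1 h'))
  obtain ⟨ρ, hρ, h3⟩ := near hs _ h1 (ε / 2) (half_pos hε)
  obtain ⟨ρ', hρ', h4⟩ := near hs _ h2 (ε / 2) (half_pos hε)
  obtain ⟨f, hf0, hf1, hf2⟩ := bump x (lt_min hρ hρ')
  obtain ⟨g, hg0, hg1, hg2⟩ := bump y (lt_min hρ hρ')
  have ht : ∀ (k : S d) (z : V d), trans h k z = k (z - h) := fun _ _ => rfl
  have hd : ∀ z c : V d, dist z (c + h) = dist (z - h) c := by
    intro z c
    rw [dist_eq_norm, dist_eq_norm]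
    congr 1
    abel
  have h5 := h3 ![f, g] (by intro i; fin_cases i; exacts [hf0, hg0])
    (by intro i; fin_cases i; exacts [hf1, hg1])
    (by
      intro i z hz
      fin_cases i
      · exact (hf2 z hz).trans (min_le_left _ _)
      · exact (hg2 z hz).trans (min_le_left _ _))
  have h6 := h4 (fun i => trans h (![f, g] i))
    (by intro i z; fin_cases i; exacts [hf0 _, hg0 _])
    (by
      intro i
      fin_cases i
      · show ∫ z, f (z - h) = 1
        rw [integral_sub_right_eq_self (fun z => f z) h]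
        exact hf1
      · show ∫ z, g (z - h) = 1
        rw [integral_sub_right_eq_self (fun z => g z) h]
        exact hg1)
    (by
      intro i z hz
      fin_cases i
      · show dist z (x + h) ≤ ρ'
        rw [hd]
        exact (hf2 _ hz).trans (min_le_right _ _)
      · show dist z (y + h) ≤ ρ'
        rw [hd]
        exact (hg2 _ hz).trans (min_le_right _ _))
  rw [hM] at h6
  rw [Real.dist_eq]
  rw [abs_le] at h5 h6 ⊢
  constructor <;> linarith [h5.1, h5.2, h6.1, h6.2]

end TPF

open TPF in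
theorem pf_TPF (hINV : Pool.Agent.H43.DPC.T_INV) : T_TPF := by
  intro d μ _ _ hT s hs
  have hM : ∀ (h : V d) (f : Fin 2 → S d),
      moment μ (fun i => trans h (f i)) = moment μ f := fun h f =>
    hINV.moment_trans d μ (Pool.Agent.H43.DPCS.transInv_of μ hT) 2 h f
  have hF : ∀ x : Fin 2 → V d, x ∉ Diag d 2 → s x = s ![x 0 - x 1, 0] := by
    intro x hx
    have h1 : x 0 - x 1 ≠ 0 := fun h => hx (mem_diag.2 (sub_eq_zero.1 h))
    have h2 := shift hM hs (x 0 - x 1) 0 (x 1) h1
    rw [sub_add_cancel, zero_add] at h2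
    rw [← h2]
    congr 1
    funext i
    fin_cases i <;> rfl
  refine ⟨fun z => s ![z, 0], ?_, ?_, hF⟩
  · refine hs.smooth.comp (t := (Diag d 2)ᶜ) (f := fun z : V d => (![z, 0] : Fin 2 → V d))
      (ContDiff.contDiffOn ?_) ?_
    · refine contDiff_pi.2 fun i => ?_
      fin_cases i
      · exact contDiff_id
      · exact contDiff_const
    · intro z hz h
      exact hz (mem_diag.1 h)
  · intro z
    by_cases hz : z = 0
    · rw [hz, neg_zero]
    · have h1 := shift hM hs (-z) 0 z (neg_ne_zero.2 hz)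
      rw [neg_add_cancel, zero_add] at h1
      show s ![-z, 0] = s ![z, 0]
      rw [← h1]
      exact swap hs 0 z (Ne.symm hz)

end Pool.Agent.H19.UDP
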